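import Pool.Agent.H32.CH.Targets

set_option autoImplicit false

namespace Pool.Agent.H30.CH.EX

open Finset Pool.Agent.H32.CH
open scoped Classical

theorem pf_EX : T_EX := by
  intro V _ G
  obtain ⟨A0, -, h0⟩ := Finset.exists_min_image (univ : Finset (Finset V)) (fun A => cost G A)
    ⟨∅, mem_univ _⟩
  have hM0 : MinC G A0 := fun A' => h0 A' (mem_univ _)
  obtain ⟨A1, hA1, h1⟩ := Finset.exists_max_image
    ((univ : Finset (Finset V)).filter (fun A => MinC G A)) (fun A => A.card)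
    ⟨A0, mem_filter.2 ⟨mem_univ _, hM0⟩⟩
  have hE1 : Ext G A1 :=
    ⟨(mem_filter.1 hA1).2, fun A' hA' => h1 A' (mem_filter.2 ⟨mem_univ _, hA'⟩)⟩
  obtain ⟨A2, hA2, h2⟩ := Finset.exists_min_image
    ((univ : Finset (Finset V)).filter (fun A => Ext G A)) (fun A => cn G A)
    ⟨A1, mem_filter.2 ⟨mem_univ _, hE1⟩⟩
  exact ⟨A2, (mem_filter.1 hA2).2, fun A' hA' => h2 A' (mem_filter.2 ⟨mem_univ _, hA'⟩)⟩

end Pool.Agent.H30.CH.EX
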