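import Pool.Agent.H32.CH.Targets

set_option autoImplicit false

namespace Pool.Agent.H30.CH.FA

open Finset Pool.Agent.H32.CH
open scoped Classical

theorem pf_FA (h1 : T_M1) : T_FA := by
  intro V _ G A C z b hD hT hM hz hb hzb hP hbC
  obtain ⟨⟨hCA, hconn, hclos⟩, hdg, hcard⟩ := hP
  obtain ⟨hzA, hz2⟩ := hz
  have hmax := (h1 V G A hD hM).1
  have hbA' : b ∉ A.erase z := fun h => hb (mem_of_mem_erase h)
  have hCe : C ⊆ A.erase z := by
    intro x hx
    rcases mem_insert.1 (hCA hx) with h | h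
    · subst h
      exact absurd hx hbC
    · exact h
  have hzC : z ∉ C := fun h => (mem_erase.1 (hCe h)).1 rfl
  have hnb : ∀ x ∈ C, ¬ G.Adj x b := fun x hx hxb =>
    hbC (hclos x hx b (mem_insert_self _ _) hxb)
  have hd : ∀ x ∈ C, dg G (A.erase z) x = 2 := by
    intro x hx
    rw [← dg_insert_not (X := A.erase z) (hnb x hx)]
    exact hdg x hx
  have hnz : ∀ x ∈ C, ¬ G.Adj x z := by
    intro x hx hxz
    have h3 := dg_erase_adj hzA hxz
    rw [hd x hx] at h3
    have h4 := hmax x (mem_of_mem_erase (hCe hx))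
    omega
  have hdA : ∀ x ∈ C, dg G A x = 2 := by
    intro x hx
    rw [← dg_erase_not (X := A) (hnz x hx)]
    exact hd x hx
  refine ⟨⟨⟨fun x hx => mem_of_mem_erase (hCe hx), hconn, ?_⟩, hdA, hcard⟩, hzC⟩
  intro x hx y hy hxy
  have hyz : y ≠ z := by
    rintro rfl
    exact hnz x hx hxy
  exact hclos x hx y (mem_insert_of_mem (mem_erase.2 ⟨hyz, hy⟩)) hxy

end Pool.Agent.H30.CH.FA
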